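import Pool.Agent.N179.HT.Asm

/-!
# The standard conjecture of Hodge type for products of K3 surfaces of different heights over finite
# fields, and for their products with arbitrary varieties with independent slopes

Let `X i` be K3 surfaces over an algebraic closure of the field with `p` elements, of finite heights
`h i` and with Picard numbers `22 - b i`. (`IsK3Variety`: over a finite field with `q` elements the
transcendental part of `H²(X i)`, of dimension `b i`, is the sum of eigenspaces of Frobenius of
dimension `ε` for the conjugates of `q α i`, all powers of `α i` generate a CM field `E i`, the
`p`-adic embeddings of `E i` with `|α i| > 1` belong to one place, of local degree `h i / ε`, and there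
`|α i| = q ^ (1 / h i)`. The Tate conjecture is known for `X i` and for `X i × X i`: Charles, Madapusi
Pera, Kim and Madapusi Pera; Ito, Ito and Koshikawa. Other varieties with cohomology of this type, for
instance cubic fourfolds, are allowed.) Let `P 0, …, P n` be polarized varieties, each one of the
`X i`, with any divisor with the hard Lefschetz theorem; let `n i` be the number of factors with
index `i` (`copies`), and let `Z` be their product, with the sum of the inverse images of the divisors.
Known is, and assumed is, the standard conjecture of Hodge type for the products of two factors with
the same index (for K3 surfaces: the theorem of Ito, Ito and Koshikawa).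

Let `Γ` be a set of rational numbers which contains `0`. Suppose that `|a i| ≤ n i` and
`∑ a i / h i ∈ Γ` for integers `a i` only if all `a i` are zero; and that `n i ≤ 2`, or `n i = 3` and
`(d i, m i) ∉ exceptionalPairs`, or `m i` is odd and `(d i, m i) ∉ exceptionalOddPairs`, where
`[E i : ℚ] = 2 d i` and `m i` is the local degree (for one surface, `n i > 2`, these are the cases of
the starting result `PowersOfK3`). If `Γ = {0}`, some of the indices may be linked: an index is
`Isolated` if `a i = 0` for all solutions as above. For the indices which are not isolated we only
assume that `n i ≤ 1`, that their heights are different (and at most `11`, the ranks `b i` at most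
`23`, which is always true), and that they do not contain three indices with
`(h, b) = (2, 4), (3, 6), (6, 12)`.

**Theorem.** The standard conjecture of Hodge type (all codimensions, homological equivalence) and
the equality of homological and numerical equivalence hold for `Z`. Moreover for **every** smooth
projective variety `U`, with a divisor with the hard Lefschetz theorem, for which the slopes of
Frobenius on `H^w(U)`, `w` even, are in `w / 2 + Γ`, the standard conjecture of Hodge type holds for
`Z × U` if and only if it holds for `U`, and homological and numerical equivalence are the same on
`Z × U` if and only if they are on `U`. Nothing else is assumed on `U`.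

In particular:

* **the standard conjecture of Hodge type holds for every product of K3 surfaces over finite
  fields with finite, pairwise different heights**, except possibly if three of the factors have the
  heights `2, 3, 6` and the Picard numbers `18, 16, 10` (so for all products of two K3 surfaces of
  different heights; supersingular K3 surfaces and all other varieties whose even cohomology is
  supersingular are allowed as `U`);
* it holds for `∏ X i ^ 2` if the heights are pairwise coprime and greater than two;
* `Γ` the integers: for every K3 surface `X` of height `h > 1` (for every product of two K3
  surfaces of different heights greater than one; for `X × X`, `h > 2`) and **every** ordinary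
  variety `U`, or any variety with integral slopes in even degrees, the conjecture for `Z × U` is
  equivalent to the conjecture for `U`.

The idea: if a product of conjugates of the `α i` and of a Frobenius eigenvalue of `U` is a power of
`q` up to roots of unity, then for each `p`-adic embedding the slopes give a solution
`∑ a i / h i ∈ Γ`; this and the structure of the CM fields show that all such relations are generated
by pairs of complex conjugate numbers. So all algebraic classes on `Z` are sums of products of classes
on pairs of factors, and the positivity on the pairs (for different indices: on the factors) gives the
positivity on `Z`, by the representation theory of Lefschetz operators and matchings of earlier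
results.
-/

set_option autoImplicit false

open CategoryTheory AlgebraicGeometry NumberField

universe u v

namespace Pool.Agent.Results.MP_ffcd14_ag.DifferentHeights

open Pool.Agent.H914 Pool.Agent.W534 Pool.Agent.TH121.KT Pool.Agent.W517.K3 Pool.Agent.W552
  Pool.Agent.H281R3.HT Pool.Agent.N179.TL Pool.Agent.N179.HT VarClass Obj WeilCohomology

/-- **The standard conjecture of Hodge type for products of K3 surfaces with independent or
different heights, and for their products with arbitrary varieties whose slopes are in `Γ`.** -/
theorem result {k : Type u} [Field k] {𝒱 : VarClass k} {ops : CycleOps 𝒱}
    (W : WeilCohomology.{u, v} ops) [IsAlgClosed W.K] (p : ℕ) [Fact p.Prime]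
    (Φ : FrobSystem W p) {r : ℕ} (X : Fin r → 𝒱.Obj) (e : Fin r → ℕ)
    (E : Fin r → Type) [∀ i, Field (E i)] [∀ i, NumberField (E i)] [∀ i, IsCMField (E i)]
    (α : ∀ i, E i) (h b : Fin r → ℕ)
    (hX : ∀ i, IsK3Variety Φ (X i) (e i) (α i) (h i) (b i))
    (Γ : Set ℚ) (hΓ : (0 : ℚ) ∈ Γ) {n : ℕ} (P : Fin (n + 1) → Polarized 𝒱)
    (idx : Fin (n + 1) → Fin r) (hP : ∀ a, (P a).X = X (idx a))
    (hA : Admissible Γ h b (fun i => Module.finrank ℚ (E i) / 2)
      (fun i => localDegree p (α i)) (copies idx))
    (hD : ∀ a, (P a).X.IsCyc 1 (P a).D)
    (hdeg : ∀ a, 0 < (P a).X.V.degCycle (divPow ops (P a).D (P a).X.dim (P a).X.V.fundCycle))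
    (hHL : ∀ a, HardLefschetz W (P a).X (P a).D)
    (hH2 : ∀ a b, idx a = idx b →
      HodgeType W ((P a).prod ops (P b)).X ((P a).prod ops (P b)).D) :
    HomEqNum W (nest ops n P).X ∧ HodgeType W (nest ops n P).X (nest ops n P).D ∧
    ∀ U : Polarized 𝒱, SlopesIn Φ Γ U.X → U.X.IsCyc 1 U.D → HardLefschetz W U.X U.D →
      (HomEqNum W ((nest ops n P).X.prod U.X) ↔ HomEqNum W U.X) ∧
      (HodgeType W ((nest ops n P).prod ops U).X ((nest ops n P).prod ops U).D ↔
        HodgeType W U.X U.D) :=
  (data_mk hX hΓ hP hA hD hdeg hHL hH2).final

end Pool.Agent.Results.MP_ffcd14_ag.DifferentHeights
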