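import Pool.Agent.N202.QR.Final

/-!
# The standard conjecture of Hodge type for abelian varieties over finite fields whose Frobenius
eigenvalues satisfy only quadratic relations

We prove the standard conjecture of Hodge type, modulo numerical equivalence, for abelian varieties
over finite fields on which, up to the relations between two eigenvalues, the relations between the
Frobenius eigenvalues are defined over an imaginary quadratic field. There are exotic Tate classes in
all dimensions on these varieties, which are not generated by classes of divisors, and in general
not known to be algebraic or to be reductions of Hodge classes. All powers are covered.

**The model** (that of `Pool.Agent.W495.TA` and `Pool.Agent.TH117.PO`). By Honda and Tate an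
abelian variety over an algebraic closure of the field with `p` elements is, up to isogeny, a
reduction `Y` of an abelian variety `X` of CM type: `RedAV p ν`, with a place `ν` of `ℂ` above `p`
and the Frobenius endomorphism described by the formula of Shimura and Taniyama. Its cohomology with
coefficients in `Ω` consists of the alternating forms on `Ω ⊗ H_1(X, ℚ)`; a class of codimension `r`
has the variables `Fin r × Fin 2`.

**Compatible systems** (`IsCompatible Ω C`). Here `Ω l` is an algebraically closed field containing
the field of `l`-adic numbers, for all prime numbers `l`; for `l = p` think of a field which
contains the ring of p-adic periods. `C Y κ` is the set of the families `(z l)` of the classes of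
the algebraic cycles of `Y` in all these cohomology theories (l-adic for `l ≠ p`, crystalline for
`l = p`, compared with the cohomology of `X`). The assumed properties:

* the formal ones (sums, cup products, pull-backs, push-forwards along projections of liftings,
  rational degrees which do not depend on `l`), the algebraicity of the Hodge classes of degree two
  and of the split Weil classes in the dimensions four and six, and the theorem of Tate for
  divisors (`IsFam`, and `IsCycleSystem` of `Pool.Agent.TH117.PO` for each `l`);
* `mixed`: the intersection number of the class of a cycle and of a rational Hodge class of the
  lifting `X`, of complementary degrees, is in the field of `l`-adic numbers. For `l ≠ p` this is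
  clear, since the Hodge class is rational; for `l = p` it is the theorem (Deligne, Ogus, Blasius,
  Wintenberger) that Hodge classes on abelian varieties with good reduction are crystalline: both
  classes are fixed by the crystalline Frobenius, hence so is their intersection number.

`IsRosatiPositive` is the positivity of the Rosati involution (Weil) and `AreTate` says that
the classes of cycles are Tate classes. So all assumptions are theorems for the system of the
classes of all algebraic cycles.

**The relations.** `IsRel Z e`: the product of the Frobenius eigenvalues of `Z` with the exponents
`e w` is `q ^ (∑ e w / 2)` up to a root of unity. `IsInvariant κ Z n`: the exponents are invariant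
under the automorphisms of `ℂ` over the imaginary quadratic field `K` (for the embedding `κ`).
`HasQuadraticRelations κ Z`: all relations are products of relations between at most two
eigenvalues (which come from divisors and supersingular factors), of invariant relations, and of
inverses. `HasRankOneRelations Z`: modulo pairs of complex conjugate eigenvalues the relations form a
group of rank at most one. `IsPowersTimesSupersingular Z Y`: up to isogeny over an algebraic
closure, `Y` is a product of powers of the factors of `Z` and of a supersingular abelian variety.
`HasOneFactor Z g`: `Z` is the reduction of one abelian variety with complex multiplication by a
field of degree `2 g` (so all simple abelian varieties of dimension `g`, up to isogeny).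

**Theorem.** `HodgeType Y`, the positivity of all primitive classes which are not numerically
equivalent to zero, in all codimensions and for all polarizations compatible with the complex
multiplications of the lifting, holds

* if `Y` is a product of powers of factors of `Z` and of a supersingular abelian variety, and `Z` has
  quadratic relations, for some imaginary quadratic field;
* in particular if `Z` has relations of rank one;
* in particular if `Y` is a power of an abelian variety of prime dimension times a supersingular
  abelian variety.

The starting results prove the positivity if all classes of cycles are products of classes of
divisors and of split Weil classes in the dimensions four and six; this covers one factor of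
dimension at most five. Ancona proved the conjecture for abelian
fourfolds and Koshikawa for the squares of the simple abelian varieties of prime dimension, by means
of motives of rank two.

**The proof.** Let `s` be a monomial in the eigenvectors which occurs in a primitive class. By the
assumption on the relations there is a monomial `J` on another abelian variety `Y'` whose field of
definition is the imaginary quadratic field `K` and such that `J` and the complex conjugate of `s`
together form a product of pairs; `J` is chosen to be of Hodge type
(a family of half systems with constant sums), so that the two conjugate monomials are
combinations of rational Hodge classes of the lifting. So the sign of `s` is the sign of `J` by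
the positivity for divisors, and the coefficient of `J` in a class of a cycle is, for each
`l`, an element of `K ⊗ ℚ_l` (by `mixed`), whose norm is a rational number independent of `l`. By
the product formula for the Hilbert symbol this rational number is positive.
-/

namespace Pool.Agent.Results.MP_ffcd14_ag.QuadraticRelations

open NumberField Module
open Pool.Agent.W495.TA Pool.Agent.TH117.PO Pool.Agent.TH117.BL Pool.Agent.N202.QR

/-- **The standard conjecture of Hodge type for quadratic relations**, for relations of rank one,
and for the powers of abelian varieties of prime dimension. -/
theorem result {p : ℕ} [Fact p.Prime] {ν : PadicAlgCl p ≃+* ℂ} {Ω : Nat.Primes → Type}
    [∀ l, Field (Ω l)] [∀ l, CharZero (Ω l)] [∀ l : Nat.Primes, Algebra ℚ_[(l : ℕ)] (Ω l)]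
    [∀ l, IsAlgClosed (Ω l)] {C : (Y : RedAV p ν) → (κ : Type) → FCl Ω Y κ → Prop}
    (hC : IsCompatible Ω C) (l : Nat.Primes) (hR : IsRosatiPositive (Ω l) (atPrime C l))
    (hT : AreTate (Ω l) (atPrime C l)) (Z Y : RedAV p ν) (hYZ : IsPowersTimesSupersingular Z Y) :
    (∀ (K : Type) [Field K] [NumberField K] [IsCMField K] (κ : K →+* ℂ), finrank ℚ K = 2 →
      HasQuadraticRelations κ Z → HodgeType (Ω l) (atPrime C l) Y) ∧
    (HasRankOneRelations Z → HodgeType (Ω l) (atPrime C l) Y) ∧
    ∀ g : ℕ, g.Prime → HasOneFactor Z g → HodgeType (Ω l) (atPrime C l) Y :=
  ⟨fun _ _ _ _ κ hK h => hodge_quad hC l hR hT hK κ h hYZ,
    fun h => hodge_rank_one hC l hR hT h hYZ,
    fun _ hg h => hodge_prime hC l hR hT hg h hYZ⟩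

end Pool.Agent.Results.MP_ffcd14_ag.QuadraticRelations
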