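import Pool.Agent.N202.M4.Main4
import Pool.Agent.N457.M4.Dia
import Pool.Agent.N478.M4.Exi
import Pool.Agent.N446.M4.Mod
import Pool.Agent.N446.M4.Sym
import Pool.Agent.N424.M4.Has
import Pool.Agent.N767.M4.Dec

/-!
# The form on the primitive algebraic classes of an abelian variety over a finite field is
everywhere locally isometric to a positive definite form

Let `Y` be an abelian variety over an algebraic closure of a finite field, with a polarization, and
let `V` be the rational vector space of the primitive classes of algebraic cycles of codimension
`r` on `Y`, modulo numerical equivalence, with the form `⟨z, w⟩ = (-1)^r deg (z w E^(dim Y - 2 r))`.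
The standard conjecture of Hodge type says that `V` is positive definite. We prove, for **all** `Y`,
all `r`, and all polarizations compatible with the complex multiplications of a lifting:

* there is a **positive definite** rational quadratic form which is isometric to `V` over the
  field of `l`-adic numbers for **all** prime numbers `l` (`l = p` included);
* the number of negative squares of `V` is **divisible by four**: the signature of `V` is
  congruent to its rank modulo eight (and the discriminant of `V` is positive);
* hence the conjecture holds for `V` if the rank of `V` is at most three;
* the same holds for each subspace `P` of `V` which is stable under the norm one elements of the CM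
  algebra of the lifting (`IsStableSpace`), for example for each isotypic component of `V` and for
  each subspace generated by one algebraic class: if its rank is at most three, then all its
  classes are positive.

No assumption is made on the Frobenius eigenvalues of `Y`, and no algebraicity of Tate classes is
assumed (besides known cases).

**The model** (that of `Pool.Agent.W495.TA`, `Pool.Agent.TH117.PO` and `Pool.Agent.N202.QR`). By
Honda and Tate an abelian variety over an algebraic closure of the field with `p` elements is, up
to isogeny, a reduction `Y` of an abelian variety `X` of CM type: `RedAV p ν`, with a place `ν` of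
`ℂ` above `p` and the Frobenius endomorphism described by the formula of Shimura and Taniyama. Its
cohomology with coefficients in `Ω` consists of the alternating forms on `Ω ⊗ H_1(X, ℚ)`; a class
of codimension `r` has the variables `Fin r × Fin 2`.

**Compatible systems** (`IsCompatible Ω C`). Here `Ω l` is an algebraically closed field containing
the field of `l`-adic numbers, for all prime numbers `l`; for `l = p` think of a field which
contains the ring of p-adic periods. `C Y κ` is the set of the families `(z l)` of the classes of
the algebraic cycles of `Y` in all these cohomology theories (l-adic for `l ≠ p`, crystalline for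
`l = p`, compared with the cohomology of `X`). The assumed properties:

* the formal ones (sums, cup products, pull-backs, push-forwards along projections of liftings,
  rational degrees which do not depend on `l`), the algebraicity of the Hodge classes of degree two
  and of the split Weil classes in the dimensions four and six, and the theorem of Tate for
  divisors (`IsFam`, and `IsCycleSystem` of `Pool.Agent.TH117.PO` for each `l`);
* `mixed`: the intersection number of the class of a cycle and of a rational Hodge class of the
  lifting `X`, of complementary degrees, is in the field of `l`-adic numbers. For `l ≠ p` this is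
  clear, since the Hodge class is rational; for `l = p` it is the theorem (Deligne, Ogus, Blasius,
  Wintenberger) that Hodge classes on abelian varieties with good reduction are crystalline: both
  classes are fixed by the crystalline Frobenius, hence so is their intersection number.

`IsRosatiPositive` is the positivity of the Rosati involution (Weil) and `AreTate` says that
the classes of cycles are Tate classes. So all assumptions are theorems for the system of the
classes of all algebraic cycles.

**The proof.** Over the field `L` generated by the CM fields a primitive class `z` has coefficients
`z_t` for the words `t` in the weights of `H_1(X)`, and `⟨z, w⟩` is a positive constant times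
`∑ t, ρ_t z_t w_(bar t)`. To the exponents `o` of a word (modulo pairs of conjugate weights) we
attach another CM abelian variety `Y'`, and a word `J` on `Y'` of Hodge type for the lifting,
stable under the stabilizer of `o` in the Galois group, such that the word `J ⊔ bar t` on
`Y' × Y` is algebraic for all words `t` with the exponents `o`, by known cases (products of classes
of divisors and of split Weil classes): this is possible since the Frobenius eigenvalues of `J`
and of `t` have the same product. Let `ζ` be an algebraic class on `Y'` which does not vanish on
`J`. The coefficients of `ζ` on the conjugates of `J` give, since the monomials of `J` are Hodge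
classes of the lifting, functions `c_l` with values in `ℚ_l ⊗ L` for all `l` (`mixed`), whose
hermitian norms `c_l (o) c_l (bar o) = μ (o)` are in `L` and independent of `l`, and the sign
of `μ (o)` is the sign of the words `t`. So the form
`B' (z, w) = ∑ t, ρ_t μ (t)⁻¹ z_t w_(bar t)` is rational and positive definite (this uses the
positivity of the algebraic words of `Y' × Y`), and the endomorphism of `V ⊗ ℚ_l` with the
eigenvalues `c_l` is an isometry from `V` to `B'`. Finally the Hilbert symbols and Hasse
invariants show that the number of negative squares of `V` is divisible by four.
-/

namespace Pool.Agent.Results.MP_ffcd14_ag.SignatureModEight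

open Module Pool.Agent.W495.TA Pool.Agent.TH117.PO Pool.Agent.N202.QR Pool.Agent.N202.M4

/-- **The form on the primitive algebraic classes of an abelian variety over a finite field is
everywhere locally isometric to a positive definite form, and the number of its negative squares is
divisible by four.** -/
theorem result {p : ℕ} [Fact p.Prime] {ν : PadicAlgCl p ≃+* ℂ} {Ω : Nat.Primes → Type}
    [∀ l, Field (Ω l)] [∀ l, CharZero (Ω l)] [∀ l : Nat.Primes, Algebra ℚ_[(l : ℕ)] (Ω l)]
    [∀ l, IsAlgClosed (Ω l)] {C : (Y : RedAV p ν) → (κ : Type) → FCl Ω Y κ → Prop}
    (hC : IsCompatible Ω C) (l0 : Nat.Primes) (hR : IsRosatiPositive (Ω l0) (atPrime C l0))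
    (hT : AreTate (Ω l0) (atPrime C l0)) {Y : RedAV p ν} {α : Y.X.H1} (hα : IsPolar Y.X α)
    {r m : ℕ} (hrm : 2 * (2 * r + m) = finrank ℚ Y.X.H1) :
    (IsStableSpace (atPrime C l0) α m fun z : HCl (Ω l0) Y r =>
      atPrime C l0 Y (Fin r × Fin 2) z ∧ IsPrim α m z) ∧
    ∀ P : HCl (Ω l0) Y r → Prop, IsStableSpace (atPrime C l0) α m P →
      (∃ (n : ℕ) (z : Fin n → HCl (Ω l0) Y r) (q : Fin n → ℚ), IsOrthBasis α m P z q) ∧
      HasLocalSquares α m P ∧
      ∀ (n : ℕ) (z : Fin n → HCl (Ω l0) Y r) (q : Fin n → ℚ), IsOrthBasis α m P z q →
        (∀ i, 0 < q i) ∨ n < 4 → IsPosSpace (atPrime C l0) α m P := by
  refine ⟨stable_all (hC.cycle l0) α r m, fun P hP => ?_⟩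
  obtain ⟨h1, h2⟩ := structure4 Pool.Agent.N767.M4.dec_
    (Pool.Agent.N446.M4.mod_ Pool.Agent.N424.M4.has_ Pool.Agent.N446.M4.sym_)
    Pool.Agent.N457.M4.dia_ Pool.Agent.N478.M4.exi_ hC l0 hR hT hα hrm hP
  exact ⟨h1, fun n z q h => ⟨(h2 n z q h).1, (h2 n z q h).2.1⟩,
    fun n z q h => (h2 n z q h).2.2⟩

end Pool.Agent.Results.MP_ffcd14_ag.SignatureModEight
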