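import Pool.Agent.N202.HZ.Final

/-!
# A zero-one-half law for the standard conjecture of Hodge type

Let `W` be a Weil cohomology theory with coefficients in a field of characteristic zero, on a class
of smooth proper varieties over a field `k` of any characteristic. Let `P = (X, D)` be a variety
with a divisor `D` which satisfies hard Lefschetz and the Lefschetz standard conjecture, with
`deg (D ^ dim X) > 0` (`Good`; for example `D` is ample). The powers of `X` are polarized by the
sum of the pull-backs of `D`; `power ops P n` is the power `P ^ (n + 1)`. No positivity of
correspondences is assumed.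

For a polarized variety let `p_j` and `m_j` (`nPos`, `nNeg`) be the numbers of positive and of
negative squares of the pairing `⟨z, w⟩ = (-1) ^ j deg (z · w · D ^ (d - 2 j))` on the primitive
cycles of codimension `j`; let `total = ∑ (p_j + m_j)` (the sum of the ranks of the pairings) and
`imbalance = ∑ |p_j - m_j|` (the sum of the absolute values of the signatures), over all
`j ≤ d / 2`. The standard conjecture of Hodge type, modulo numerical equivalence (`HodgeTypeNum`),
says that all `m_j` are zero, and then the imbalance is equal to the total number of squares.

**Theorem.** Let `N` be the sum of all Betti numbers of `X`. For every `K ≥ 0` one of the following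
holds.

* The standard conjecture of Hodge type, modulo numerical equivalence, holds for `X ^ (K + 1)`.
* For **all** polarized varieties `Q` which satisfy hard Lefschetz and the Lefschetz standard
  conjecture, the positive and the negative squares are equidistributed on `Q × X ^ (n + 1)` for
  `n → ∞`, with an exponentially small error: the imbalance is at most
  `N_Q N ^ (r + 1) (N ^ (K + 1) - 2) ^ q`, for `n = (K + 1) q + r`, `0 ≤ r ≤ K`, while the total
  number of squares is at least `N ^ n / (n + 2) ^ (N ^ 2)`. So the imbalance is at most
  `C c ^ n` times the total number of squares, with `c < 1`.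

So there is a zero-one-half law: either no negative squares exist on any power of `X`, or
asymptotically one half of all the squares on the powers of `X`, and on the products of the powers
of `X` with any other variety `Q`, is negative. In particular the conjecture holds for all powers of
`X` as soon as, for infinitely many powers, at least 51 percent of the squares are positive. (Apply
the theorem with `Q = P`.)

The proof. Let `R = P ^ (K + 1)`; let `ξ` and `α` be orthogonal algebraic classes of the same
degree on `R` with `⟨ξ, ξ⟩ = b > 0` (a power of the polarization) and `⟨α, α⟩ = - a < 0`, for the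
form defined by the star operator. The operator `θ x = ⟨x, ξ⟩ α + ⟨x, α⟩ ξ` and the orthogonal
projector `r` to the orthogonal complement of `ξ` and `α` are algebraic and satisfy
`⟨θ x, θ y⟩ = - a b ⟨(1 - r) x, y⟩`. On `Q × R ^ n` the operators
`Θ_n = Θ_(n-1) ⊗ r + 1 ⊗ θ` and `g_n = g_(n-1) ⊗ r` satisfy the same identity, and the rank of
`g_n` is `N_Q (N ^ (K + 1) - 2) ^ n`. So on the algebraic classes of any degree the form is
changed to its negative by the algebraic operator `Θ_n`, up to a form whose rank is at most the
rank of `g_n`; this bounds the signatures. The number of squares is estimated from below by the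
permutations of the factors of `X ^ m × X ^ m`: the rank of their Gram matrix `G` is at least
`(tr G) ^ 2 / tr (G ^ 2)`, which is computed with the lemma of Burnside.
-/

open CategoryTheory AlgebraicGeometry

universe u v

namespace Pool.Agent.Results.MP_ffcd14_ag.ZeroOneHalfLaw

open Module
open Pool.Agent.H914 Pool.Agent.H281R3.HT Pool.Agent.N202.HZ

/-- **The zero-one-half law for the standard conjecture of Hodge type.** -/
theorem result {k : Type u} [Field k] {𝒱 : VarClass k} {ops : CycleOps 𝒱}
    (W : WeilCohomology.{u, v} ops) (P : Polarized 𝒱) (hP : Good W P) (K : ℕ) :
    HodgeTypeNum W (power ops P K).X (power ops P K).D ∨ ∀ Q, Good W Q →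
      (∀ n, imbalance W (Q.prod ops (power ops P n)).X (Q.prod ops (power ops P n)).D ≤
          finrank W.K (W.H Q.X) * finrank W.K (W.H P.X) ^ (n % (K + 1) + 1) *
            (finrank W.K (W.H P.X) ^ (K + 1) - 2) ^ (n / (K + 1)) ∧
        finrank W.K (W.H P.X) ^ n ≤
          total W (Q.prod ops (power ops P n)).X (Q.prod ops (power ops P n)).D *
            (n + 2) ^ (finrank W.K (W.H P.X) ^ 2)) ∧
      ∃ C c : ℝ, 0 < c ∧ c < 1 ∧ ∀ n : ℕ,
        (imbalance W (Q.prod ops (power ops P n)).X (Q.prod ops (power ops P n)).D : ℝ) ≤
          C * c ^ n * total W (Q.prod ops (power ops P n)).X (Q.prod ops (power ops P n)).D :=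
  final W P hP K

end Pool.Agent.Results.MP_ffcd14_ag.ZeroOneHalfLaw
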